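import Pool.Agent.V11230.TwoFac3
import Pool.Agent.NPC.Classes
import Pool.Agent.NPC.Dec

/-!
# 2-factors with one directed cycle: NP-hardness

A reduction from 3SAT.  The directed cycles of the constructed digraph run through the hubs of all
the variables, and between the hubs of `x` and `x + 1` through all vertices of the literal `x` or
through all vertices of its negation; these literals are set to false.  For each clause and each
literal there is a vertex of the literal; it lies in a private 4-clique minus an arc, whose three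
other vertices form a triangle.  The clause with number `j` has two adjacent vertices that are
joined to the vertices for `j` of its three literals, and have no other neighbours.  So one of these
three vertices lies on the cycle of the 2-factor through the clause vertices, and therefore not on
the directed cycle.
-/

set_option autoImplicit false

namespace Pool.Agent.NPC.V11230.TF

open Pool.Agent.NPC Pool.Agent.NPC.V11230.CD

/-! ### Polynomial time -/

section

variable {α : Type} [TEnc α] {f : α → List Cl} {x y : α → T} {u v : α → ℕ} {l : α → Lit ℕ}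

theorem q1 (hx : Poly x) : Poly (fun a => (x a).1) := Poly.fst hx
theorem q2 (hx : Poly x) : Poly (fun a => (x a).2.1) := Poly.fst (Poly.snd hx)
theorem q3 (hx : Poly x) : Poly (fun a => (x a).2.2) := Poly.snd (Poly.snd hx)

theorem qe (hu : Poly u) (m : ℕ) : Poly (fun a => decide (u a = m)) :=
  Poly.decide_eq hu (Poly.const m)

theorem poly_add_const (hu : Poly u) (m : ℕ) : Poly (fun a => u a + m) :=
  Poly.add hu (Poly.const m)

theorem poly_lk (hl : Poly l) : Poly (fun a => lk (l a)) := by
  unfold lk
  exact Poly.ite ((Poly.fst hl).congr fun a => by simp) (Poly.const 1) (Poly.const 2)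

theorem poly_inCl {c : α → Cl} (hc : Poly c) (hu : Poly u) (hv : Poly v) :
    Poly (fun a => inCl (c a) (u a) (v a)) := by
  unfold inCl
  have h1 := Poly.fst hc
  have h2 := Poly.fst (Poly.snd hc)
  have h3 := Poly.snd (Poly.snd hc)
  exact Poly.or (Poly.and (Poly.decide_eq (poly_lk h1) hu) (Poly.decide_eq (Poly.snd h1) hv))
    (Poly.or (Poly.and (Poly.decide_eq (poly_lk h2) hu) (Poly.decide_eq (Poly.snd h2) hv))
      (Poly.and (Poly.decide_eq (poly_lk h3) hu) (Poly.decide_eq (Poly.snd h3) hv)))

theorem poly_arcB (hf : Poly f) (hx : Poly x) (hy : Poly y) :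
    Poly (fun a => arcB (f a) (x a) (y a)) := by
  have hL : Poly (fun a => (f a).length) := Poly.length hf
  have h3L : Poly (fun a => 3 * (f a).length) := Poly.mul (Poly.const 3) hL
  have x1 := q1 hx
  have x2 := q2 hx
  have x3 := q3 hx
  have y1 := q1 hy
  have y2 := q2 hy
  have y3 := q3 hy
  have xs := Poly.snd hx
  have ys := Poly.snd hy
  have e34 := Poly.or (qe x1 3) (qe x1 4)
  unfold arcB
  exact Poly.or (Poly.or (Poly.or (Poly.or (Poly.or (Poly.or (Poly.or (Poly.or (Poly.or
    (Poly.and (Poly.and (Poly.and (qe x1 0) (Poly.or (qe y1 1) (qe y1 2)))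
      (Poly.decide_eq y2 x2)) (qe y3 0))
    (Poly.and (Poly.and (Poly.and (Poly.or (qe x1 1) (qe x1 2)) (Poly.decide_eq y1 x1))
      (Poly.decide_eq y2 x2)) (Poly.decide_eq y3 (poly_add_const x3 1))))
    (Poly.and (Poly.and (Poly.and (Poly.or (qe x1 1) (qe x1 2))
      (Poly.decide_eq (poly_add_const x3 1) hL)) (qe y1 0))
      (Poly.decide_eq y2 (poly_add_const x2 1))))
    (Poly.and (Poly.and (Poly.and (qe x1 0) (Poly.decide_eq x2 h3L)) (qe y1 0)) (qe y2 0)))
    (Poly.and (Poly.and (Poly.and (Poly.decide_le (Poly.const 3) x1)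
      (Poly.decide_le x1 (Poly.const 6))) (Poly.decide_eq y1 (poly_add_const x1 2)))
      (Poly.decide_eq ys xs)))
    (Poly.and (Poly.and e34 (Poly.decide_eq y1 (poly_add_const x1 4))) (Poly.decide_eq ys xs)))
    (Poly.and (Poly.and e34 (Poly.decide_eq (poly_add_const y1 2) x1)) (Poly.decide_eq ys xs)))
    (Poly.and (Poly.and (Poly.or (qe x1 5) (qe x1 6)) (Poly.decide_eq (poly_add_const y1 4) x1))
      (Poly.decide_eq ys xs)))
    (Poly.and (Poly.and (qe x1 9) (qe y1 10)) (Poly.decide_eq y2 x2)))
    (Poly.and (Poly.and (Poly.and (Poly.decide_le (Poly.const 9) x1)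
      (Poly.or (qe y1 1) (qe y1 2))) (Poly.decide_eq y3 x2))
      (poly_inCl (Poly.getD hf x2 (Poly.const dcl)) y1 y2))

end

theorem poly_lab : Poly (fun φ : List Cl => lab φ.length) := by
  have hu : UPoly (fun φ : List Cl => φ.length) := UPoly.length Poly.id
  have hu1 : UPoly (fun a : List Cl × ℕ => a.1.length) := UPoly.length (Poly.fst Poly.id)
  have hu2 : UPoly (fun a : (List Cl × ℕ) × ℕ => a.1.1.length) :=
    UPoly.length (Poly.fst (Poly.fst Poly.id))
  unfold lab
  refine Poly.filter (p := fun (φ : List Cl) (u : T) => okT φ.length u) ?_ ?_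
  · refine Poly.flatMap (F := fun (φ : List Cl) (k : ℕ) => (List.range (3 * φ.length + 1)).flatMap
      (fun x => (List.range φ.length).map (fun j => ((k, x, j) : T)))) (Poly.const _) ?_
    refine Poly.flatMap (F := fun (a : List Cl × ℕ) (x : ℕ) => (List.range a.1.length).map
      (fun j => ((a.2, x, j) : T)))
      (UPoly.range (UPoly.add (UPoly.mul (UPoly.const 3) hu1) (UPoly.const 1))) ?_
    refine Poly.map (F := fun (a : (List Cl × ℕ) × ℕ) (j : ℕ) => ((a.1.2, a.2, j) : T))
      (UPoly.range hu2) ?_
    have h0 : Poly (fun w : ((List Cl × ℕ) × ℕ) × ℕ => w) := Poly.id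
    have h1 := Poly.fst h0
    have h2 := Poly.fst h1
    exact Poly.pair (Poly.snd h2) (Poly.pair (Poly.snd h1) (Poly.snd h0))
  · have hL : Poly (fun a : List Cl × T => a.1.length) := Poly.length (Poly.fst Poly.id)
    have hx : Poly (fun a : List Cl × T => a.2) := Poly.snd Poly.id
    have x1 := q1 hx
    have x2 := q2 hx
    have x3 := q3 hx
    unfold okT
    exact Poly.or (Poly.or (Poly.and (qe x1 0) (qe x3 0))
      (Poly.and (Poly.and (Poly.decide_le (Poly.const 1) x1) (Poly.decide_le x1 (Poly.const 8)))
        (Poly.decide_lt x2 (Poly.mul (Poly.const 3) hL))))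
      (Poly.and (Poly.and (Poly.decide_le (Poly.const 9) x1) (Poly.decide_lt x2 hL)) (qe x3 0))

theorem poly_mat : Poly mat := by
  unfold mat
  refine Poly.map (F := fun (φ : List Cl) (u : T) => (lab φ.length).map (fun v => arcB φ u v))
    poly_lab ?_
  refine Poly.map (F := fun (a : List Cl × T) (v : T) => arcB a.1 a.2 v)
    (poly_lab.comp (Poly.fst Poly.id)) ?_
  have h0 : Poly (fun w : (List Cl × T) × T => w) := Poly.id
  have h1 := Poly.fst h0
  exact poly_arcB (Poly.fst h1) (Poly.snd h1) (Poly.snd h0)

theorem poly_eq_true : Poly (fun y : List Bool => decide (y = [true])) :=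
  Poly.decide_eq Poly.id (Poly.const [true])

/-! ### The statement -/

/-- The underlying graph of the digraph with adjacency matrix `M` has a 2-factor one of whose
cycles is a directed cycle of the digraph. -/
def Property (M : List (List Bool)) : Prop :=
  HasDirTwoFactor (fun i j : Fin M.length => Arc M i j)

theorem property_mat {φ : List Cl} (hb : Bounded3 φ) (hne : φ ≠ []) :
    SAT3 φ ↔ Property (mat φ) := by
  have key : Property (mat φ) ↔ HasDirTwoFactor (fun u v : Vt φ => arcB φ u.1 v.1 = true) := by
    constructor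
    · exact HasDirTwoFactor.map (posEquiv φ) (fun i j => arc_pos φ i j)
    · refine HasDirTwoFactor.map (posEquiv φ).symm (fun u v => ?_)
      rw [arc_pos, Equiv.apply_symm_apply, Equiv.apply_symm_apply]
  rw [key]
  exact ⟨complete hb hne, sound hne⟩

theorem hardPr_property : HardPr IsDigraph Property := by
  refine hardPr_SAT3b.trans (f := mat) poly_mat ?_ ?_
  · rintro φ ⟨_, _, _⟩
    exact isDigraph_mat φ
  · rintro φ ⟨_, hb, hne⟩
    exact property_mat hb hne

end Pool.Agent.NPC.V11230.TF

namespace Pool.Agent.Results.MP_2afc76_lc.DirectedCycleNPHard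

open Pool.Agent.NPC Pool.Agent.NPC.V11230.CD Pool.Agent.NPC.V11230.TF

/-- **Deciding whether the underlying graph of a digraph has a 2-factor one of whose cycles is a
directed cycle is `NP`-hard**, so there is no polynomial-time algorithm for it unless `P = NP`. -/
theorem result :
    (∀ L : Set (List Bool), InNP L → ∃ f : List Bool → List (List Bool),
      PolyTime (fun x => bits (f x)) ∧ (∀ x, IsDigraph (f x)) ∧
        ∀ x, x ∈ L ↔ Property (f x)) ∧
    (∀ A : List Bool → List Bool, PolyTime A →
      (∀ M : List (List Bool), IsDigraph M → (A (bits M) = [true] ↔ Property M)) →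
      ∀ L : Set (List Bool), InNP L → InP L) := by
  refine ⟨fun L hL => ?_, fun A hA h L hL => ?_⟩
  · obtain ⟨f, hf, hpr, hfL⟩ := hardPr_property L hL
    exact ⟨f, PC.toPolyTime hf, hpr, hfL⟩
  · obtain ⟨f, hf, hpr, hfL⟩ := hardPr_property L hL
    have h1 : PolyTime (fun x => bits (f x)) := PC.toPolyTime hf
    have h2 : PolyTime (fun x => A (bits (f x))) := H642R2.TMSim.polyTime_comp hA h1
    refine ⟨fun x => [decide (A (bits (f x)) = [true])], polyTime_test h2 poly_eq_true, fun x => ?_⟩
    rw [hfL x, ← h (f x) (hpr x)]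
    simp

end Pool.Agent.Results.MP_2afc76_lc.DirectedCycleNPHard
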